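import Pool.Agent.U644.EF.Defs

/-!
# Euler factors of the product with a Tate curve
-/

set_option autoImplicit false

open Module Polynomial TensorProduct

namespace Pool.Agent.U644.EF

universe u v

section scaling

variable {E : Type u} [Field E] {V : Type v} [AddCommGroup V] [Module E V] [Module.Finite E V]

lemma reverse_charpoly (f : Module.End E V) : f.charpoly.reverse =
    (LinearMap.toMatrix (Module.Free.chooseBasis E V) (Module.Free.chooseBasis E V) f).charpolyRev := by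
  rw [← Matrix.reverse_charpoly, LinearMap.charpoly_toMatrix]

lemma reverse_charpoly_smul (f : Module.End E V) (c : E) :
    (c • f).charpoly.reverse = f.charpoly.reverse.comp (C c * X) := by
  rw [reverse_charpoly, reverse_charpoly, map_smul]
  set M := LinearMap.toMatrix (Module.Free.chooseBasis E V) (Module.Free.chooseBasis E V) f
  unfold Matrix.charpolyRev
  have h : ∀ p : E[X], p.comp (C c * X) = (compRingHom (C c * X)) p := fun p => rfl
  rw [h, RingHom.map_det]
  congr 1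
  ext1 i j
  simp only [Matrix.sub_apply, Matrix.smul_apply, Matrix.map_apply, RingHom.mapMatrix_apply,
    Matrix.one_apply, smul_eq_mul, map_sub, map_mul, C_mul]
  have e1 : (compRingHom (C c * X)) X = C c * X := X_comp
  have e2 : ∀ a : E, (compRingHom (C c * X)) (C a) = C a := fun a => C_comp
  rw [e1, e2]
  split_ifs
  · rw [map_one]; ring
  · rw [map_zero]; ring

end scaling

variable {G : Type} {E : Type u} [Field E] [CharZero E] {q : ℕ} {R U R'' : WDRep.{u, v} G E q}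

/-- the vector `x ⊗ e + y ⊗ f` -/
noncomputable def emb (κ : R.V ⊗[E] U.V ≃ₗ[E] R''.V) (b : Basis (Fin 2) E U.V) :
    R.V × R.V →ₗ[E] R''.V :=
  κ.toLinearMap ∘ₗ (((TensorProduct.mk E R.V U.V).flip (b 0)).coprod
    ((TensorProduct.mk E R.V U.V).flip (b 1)))

omit [CharZero E] in
lemma emb_apply (κ : R.V ⊗[E] U.V ≃ₗ[E] R''.V) (b : Basis (Fin 2) E U.V) (x y : R.V) :
    emb κ b (x, y) = κ (x ⊗ₜ b 0) + κ (y ⊗ₜ b 1) := by
  simp [emb]

omit [CharZero E] in
lemma emb_bijective (κ : R.V ⊗[E] U.V ≃ₗ[E] R''.V) (b : Basis (Fin 2) E U.V) :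
    Function.Bijective (emb κ b) := by
  have hsurj : Function.Surjective (emb κ b) := by
    rw [← LinearMap.range_eq_top, eq_top_iff]
    intro z _
    obtain ⟨t, rfl⟩ := κ.surjective z
    induction t using TensorProduct.induction_on with
    | zero => rw [map_zero]; exact Submodule.zero_mem _
    | add t t' h h' => rw [map_add]; exact Submodule.add_mem _ (h trivial) (h' trivial)
    | tmul x y =>
      refine ⟨(b.repr y 0 • x, b.repr y 1 • x), ?_⟩
      rw [emb_apply, ← map_add]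
      congr 1
      rw [smul_tmul, smul_tmul, ← tmul_add]
      congr 1
      have := b.sum_repr y
      rw [Fin.sum_univ_two] at this
      exact this
  have hdim : finrank E (R.V × R.V) = finrank E R''.V := by
    rw [← κ.finrank_eq, Module.finrank_prod, Module.finrank_tensorProduct, finrank_eq_card_basis b,
      Fintype.card_fin]
    ring
  exact ⟨(LinearMap.injective_iff_surjective_of_finrank_eq_finrank hdim).2 hsurj, hsurj⟩

omit [CharZero E] in
lemma emb_F (κ : R.V ⊗[E] U.V ≃ₗ[E] R''.V) (b : Basis (Fin 2) E U.V)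
    (hF : ∀ x y, R''.F (κ (x ⊗ₜ y)) = κ (R.F x ⊗ₜ U.F y)) (h0 : U.F (b 0) = (q : E) • b 0)
    (h1 : U.F (b 1) = b 1) (x y : R.V) :
    R''.F (emb κ b (x, y)) = emb κ b ((q : E) • R.F x, R.F y) := by
  rw [emb_apply, emb_apply, map_add, hF, hF, h0, h1, tmul_smul, smul_tmul']

omit [CharZero E] in
lemma emb_N (κ : R.V ⊗[E] U.V ≃ₗ[E] R''.V) (b : Basis (Fin 2) E U.V)
    (hN : ∀ x y, R''.N (κ (x ⊗ₜ y)) = κ (R.N x ⊗ₜ y) + κ (x ⊗ₜ U.N y)) (h0 : U.N (b 0) = b 1)
    (h1 : U.N (b 1) = 0) (x y : R.V) :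
    R''.N (emb κ b (x, y)) = emb κ b (R.N x, x + R.N y) := by
  have e : κ (y ⊗ₜ[E] (0 : U.V)) = 0 := by rw [tmul_zero, LinearEquiv.map_zero]
  rw [emb_apply, emb_apply, map_add, hN, hN, h0, h1, e, add_zero, add_tmul, map_add]
  abel

omit [CharZero E] in
lemma emb_powN (κ : R.V ⊗[E] U.V ≃ₗ[E] R''.V) (b : Basis (Fin 2) E U.V)
    (hN : ∀ x y, R''.N (κ (x ⊗ₜ y)) = κ (R.N x ⊗ₜ y) + κ (x ⊗ₜ U.N y)) (h0 : U.N (b 0) = b 1)
    (h1 : U.N (b 1) = 0) (s : ℕ) (x y : R.V) :
    (R''.N ^ (s + 1)) (emb κ b (x, y)) =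
      emb κ b ((R.N ^ (s + 1)) x, (R.N ^ s) (((s : E) + 1) • x + R.N y)) := by
  induction s generalizing x y with
  | zero => simp [emb_N κ b hN h0 h1]
  | succ s ih =>
    rw [pow_succ, Module.End.mul_apply, emb_N κ b hN h0 h1, ih]
    have e : ((s : E) + 1) • R.N x + R.N (x + R.N y) =
        R.N ((((s + 1 : ℕ) : E) + 1) • x + R.N y) := by
      rw [map_add, map_add, map_smul]
      push_cast
      module
    rw [e, ← Module.End.mul_apply, ← Module.End.mul_apply, ← pow_succ, ← pow_succ]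

/-- The invariants of level `s + 1` of the product. -/
lemma emb_mem (κ : R.V ⊗[E] U.V ≃ₗ[E] R''.V) (b : Basis (Fin 2) E U.V)
    (hN : ∀ x y, R''.N (κ (x ⊗ₜ y)) = κ (R.N x ⊗ₜ y) + κ (x ⊗ₜ U.N y)) (h0 : U.N (b 0) = b 1)
    (h1 : U.N (b 1) = 0) (hr : ∀ g x y, R''.r g (κ (x ⊗ₜ y)) = κ (R.r g x ⊗ₜ U.r g y))
    (hU : ∀ g x, U.r g x = x) (s : ℕ) (x y : R.V) :
    emb κ b (x, y) ∈ R''.inv (s + 1) ↔
      ((s : E) + 1) • x + R.N y ∈ R.inv s ∧ y ∈ R.inv (s + 2) := by
  have hinj := (emb_bijective κ b).1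
  have hs : ((s : E) + 1) ≠ 0 := by
    have : ((s : E) + 1) = ((s + 1 : ℕ) : E) := by push_cast; rfl
    rw [this]
    exact Nat.cast_ne_zero.2 (by omega)
  have hr' : ∀ g x y, R''.r g (emb κ b (x, y)) = emb κ b (R.r g x, R.r g y) := by
    intro g x y
    rw [emb_apply, emb_apply, map_add, hr, hr, hU, hU]
  rw [WDRep.mem_inv, WDRep.mem_inv, WDRep.mem_inv, emb_powN κ b hN h0 h1]
  have e1 : (emb κ b ((R.N ^ (s + 1)) x, (R.N ^ s) (((s : E) + 1) • x + R.N y)) = 0) ↔
      (R.N ^ (s + 1)) x = 0 ∧ (R.N ^ s) (((s : E) + 1) • x + R.N y) = 0 := by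
    rw [map_eq_zero_iff _ hinj, Prod.mk_eq_zero]
  have e2 : (∀ g, R''.r g (emb κ b (x, y)) = emb κ b (x, y)) ↔
      ∀ g, R.r g x = x ∧ R.r g y = y := by
    refine forall_congr' fun g => ?_
    rw [hr', hinj.eq_iff, Prod.mk.injEq]
  rw [e1, e2]
  constructor
  · rintro ⟨⟨h2, h3⟩, h4⟩
    refine ⟨⟨h3, fun g => ?_⟩, ?_, fun g => (h4 g).2⟩
    · rw [map_add, map_smul, (h4 g).1, R.r_N, (h4 g).2]
    · have h5 : (R.N ^ (s + 1)) (((s : E) + 1) • x + R.N y) = 0 := by
        rw [pow_succ', Module.End.mul_apply, h3, map_zero]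
      rw [map_add, map_smul, h2, smul_zero, zero_add] at h5
      rw [show s + 2 = s + 1 + 1 by ring, pow_succ, Module.End.mul_apply]
      exact h5
  · rintro ⟨⟨h2, h3⟩, h4, h5⟩
    have h6 : (R.N ^ (s + 1)) (R.N y) = 0 := by
      rw [← Module.End.mul_apply, ← pow_succ]
      exact h4
    refine ⟨⟨?_, h2⟩, fun g => ⟨?_, h5 g⟩⟩
    · have h7 : (R.N ^ (s + 1)) (((s : E) + 1) • x + R.N y) = 0 := by
        rw [pow_succ', Module.End.mul_apply, h2, map_zero]
      rw [map_add, map_smul, h6, add_zero] at h7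
      exact (smul_eq_zero.1 h7).resolve_left hs
    · have h8 := h3 g
      rw [map_add, map_smul, R.r_N, h5 g] at h8
      have h9 := add_right_cancel h8
      exact smul_right_injective _ hs h9

/-- The recursion for the Euler factors. -/
theorem factor_tensor (hU : IsTate U) (h : IsTensor R U R'') (s : ℕ) :
    R''.factor (s + 1) = R.factor (s + 2) * (R.factor s).comp (C (q : E) * X) := by
  obtain ⟨hr0, b, hN0, hN1, hF0, hF1⟩ := hU
  have hr1 : ∀ g x, U.r g x = x := fun g x => by rw [hr0, LinearMap.id_apply]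
  obtain ⟨κ, hF, hN, hr⟩ := h
  have hs : ((s : E) + 1) ≠ 0 := by
    have : ((s : E) + 1) = ((s + 1 : ℕ) : E) := by push_cast; rfl
    rw [this]
    exact Nat.cast_ne_zero.2 (by omega)
  have hmem := emb_mem κ b hN hN0 hN1 hr hr1 s
  -- the equivalence
  let Φ0 : R.inv (s + 2) × R.inv s →ₗ[E] R''.V :=
    emb κ b ∘ₗ LinearMap.prod (((s : E) + 1)⁻¹ • ((R.inv s).subtype ∘ₗ LinearMap.snd E _ _ -
      R.N ∘ₗ (R.inv (s + 2)).subtype ∘ₗ LinearMap.fst E _ _))
      ((R.inv (s + 2)).subtype ∘ₗ LinearMap.fst E _ _)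
  have hΦ0 : ∀ (y : R.inv (s + 2)) (z : R.inv s), Φ0 (y, z) =
      emb κ b (((s : E) + 1)⁻¹ • ((z : R.V) - R.N y), (y : R.V)) := fun y z => rfl
  have hΦm : ∀ w, Φ0 w ∈ R''.inv (s + 1) := by
    rintro ⟨y, z⟩
    rw [hΦ0, hmem, smul_smul, mul_inv_cancel₀ hs, one_smul, sub_add_cancel]
    exact ⟨z.2, y.2⟩
  let Φ : R.inv (s + 2) × R.inv s →ₗ[E] R''.inv (s + 1) := Φ0.codRestrict _ hΦm
  have hΦinj : Function.Injective Φ := by
    rw [← LinearMap.ker_eq_bot, LinearMap.ker_eq_bot']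
    rintro ⟨y, z⟩ h0
    have h1 : Φ0 (y, z) = 0 := congrArg Subtype.val h0
    rw [hΦ0, map_eq_zero_iff _ (emb_bijective κ b).1, Prod.mk_eq_zero] at h1
    obtain ⟨h2, h3⟩ := h1
    rw [h3, map_zero, sub_zero] at h2
    have h4 := (smul_eq_zero.1 h2).resolve_left (inv_ne_zero hs)
    exact Prod.ext (Subtype.ext h3) (Subtype.ext h4)
  have hΦsurj : Function.Surjective Φ := by
    rintro ⟨w, hw⟩
    obtain ⟨⟨x, y⟩, rfl⟩ := (emb_bijective κ b).2 w
    obtain ⟨h1, h2⟩ := (hmem x y).1 hw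
    refine ⟨(⟨y, h2⟩, ⟨_, h1⟩), Subtype.ext ?_⟩
    show Φ0 _ = _
    rw [hΦ0]
    congr 2
    rw [add_sub_cancel_right, smul_smul, inv_mul_cancel₀ hs, one_smul]
  let e : (R.inv (s + 2) × R.inv s) ≃ₗ[E] R''.inv (s + 1) := LinearEquiv.ofBijective Φ ⟨hΦinj, hΦsurj⟩
  have hconj : R''.F.restrict (WDRep.F_inv (s + 1)) =
      e.conj ((R.F.restrict (WDRep.F_inv (s + 2))).prodMap
        ((q : E) • R.F.restrict (WDRep.F_inv s))) := by
    apply LinearMap.ext
    intro w
    obtain ⟨⟨y, z⟩, rfl⟩ := e.surjective w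
    rw [LinearEquiv.conj_apply_apply, LinearEquiv.symm_apply_apply]
    apply Subtype.ext
    show R''.F (Φ0 (y, z)) = Φ0 (⟨R.F y, _⟩, ⟨(q : E) • R.F z, _⟩)
    rw [hΦ0, hΦ0, emb_F κ b hF hF0 hF1]
    congr 2
    show (q : E) • R.F (((s : E) + 1)⁻¹ • ((z : R.V) - R.N y)) =
      ((s : E) + 1)⁻¹ • ((q : E) • R.F z - R.N (R.F y))
    rw [R.N_F, map_smul, map_sub, smul_comm, smul_sub]
  unfold WDRep.factor
  rw [hconj, LinearEquiv.charpoly_conj, LinearMap.charpoly_prodMap, reverse_mul_of_domain,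
    reverse_charpoly_smul]

omit [CharZero E] in
lemma factor_zero (R : WDRep.{u, v} G E q) : R.factor 0 = 1 := by
  have h : R.inv 0 = ⊥ := by
    rw [eq_bot_iff]
    intro x hx
    rw [WDRep.mem_inv, pow_zero] at hx
    exact (Submodule.mem_bot E).2 hx.1
  have : Subsingleton (R.inv 0) := by rw [h]; infer_instance
  have h1 : (R.F.restrict (WDRep.F_inv 0)).charpoly = 1 := by
    have h2 := LinearMap.charpoly_monic (R.F.restrict (WDRep.F_inv (R := R) 0))
    refine h2.natDegree_eq_zero.1 ?_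
    rw [LinearMap.charpoly_natDegree, finrank_zero_of_subsingleton]
  unfold WDRep.factor
  rw [h1, ← C_1, reverse_C]

omit [CharZero E] in
lemma coeff_zero_factor (R : WDRep.{u, v} G E q) (s : ℕ) : (R.factor s).coeff 0 = 1 := by
  unfold WDRep.factor
  rw [coeff_zero_reverse, LinearMap.charpoly_monic]

omit [CharZero E] in
lemma factor_ne_zero (R : WDRep.{u, v} G E q) (s : ℕ) : R.factor s ≠ 0 := by
  intro h
  have := coeff_zero_factor R s
  rw [h, coeff_zero] at this
  exact zero_ne_one this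

omit [CharZero E] in
/-- The degree of the factor is the dimension of the space. -/
lemma natDegree_factor (R : WDRep.{u, v} G E q) (s : ℕ) :
    (R.factor s).natDegree = finrank E (R.inv s) := by
  unfold WDRep.factor
  have hinj : Function.Injective (R.F.restrict (WDRep.F_inv s)) := by
    intro x y hxy
    exact Subtype.ext (R.F_inj (congrArg Subtype.val hxy))
  have h0 : (R.F.restrict (WDRep.F_inv s)).charpoly.coeff 0 ≠ 0 := by
    intro h1
    have h2 : (R.F.restrict (WDRep.F_inv s)).charpoly.IsRoot 0 := by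
      rw [IsRoot.def, ← coeff_zero_eq_eval_zero, h1]
    have h3 := (Module.End.hasEigenvalue_iff_isRoot_charpoly _ _).2 h2
    obtain ⟨x, hx⟩ := h3.exists_hasEigenvector
    have h4 := hx.apply_eq_smul
    rw [zero_smul] at h4
    exact hx.2 (hinj (h4.trans (map_zero _).symm))
  have h1 : (R.F.restrict (WDRep.F_inv s)).charpoly.natTrailingDegree = 0 :=
    natTrailingDegree_eq_zero_of_constantCoeff_ne_zero h0
  rw [reverse_natDegree, h1, Nat.sub_zero, LinearMap.charpoly_natDegree]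

end Pool.Agent.U644.EF
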